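import Mathlib

/-!
# Free topological groups over uniform spaces and Tukey reducibility: definitions
-/

open Set Filter Topology Uniformity

namespace Pool.Agent.Work.MP_849c2a_gt

/-- Tukey reducibility `P ≤_T Q`: there is a map `φ : Q → P` that sends cofinal subsets of `Q` to
cofinal subsets of `P`. -/
def TukeyLE (P Q : Type*) [Preorder P] [Preorder Q] : Prop :=
  ∃ φ : Q → P, ∀ C : Set Q, IsCofinal C → IsCofinal (φ '' C)

/-- The symmetric entourages of a uniform space. -/
structure SymEntourage (X : Type*) [UniformSpace X] where
  /-- the underlying set of pairs -/
  carrier : Set (X × X)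
  mem : carrier ∈ 𝓤 X
  symm : ∀ x y, (x, y) ∈ carrier → (y, x) ∈ carrier

/-- Symmetric entourages are ordered by reverse inclusion. -/
instance (X : Type*) [UniformSpace X] : Preorder (SymEntourage X) where
  le V W := W.carrier ⊆ V.carrier
  le_refl V := subset_rfl
  le_trans U V W h1 h2 := h2.trans h1

/-- The neighbourhoods of the identity of a group `G` with the topology `t`. -/
structure NhdOne {G : Type*} [Group G] (t : TopologicalSpace G) where
  /-- the underlying set -/
  carrier : Set G
  mem : carrier ∈ @nhds G t 1

/-- Neighbourhoods of the identity are ordered by reverse inclusion. -/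
instance {G : Type*} [Group G] (t : TopologicalSpace G) : Preorder (NhdOne t) where
  le V W := W.carrier ⊆ V.carrier
  le_refl V := subset_rfl
  le_trans U V W h1 h2 := h2.trans h1

/-- A uniform space is `ω`-narrow if for every entourage `V` it is a union of countably many
balls `{x | (a, x) ∈ V}`. -/
def OmegaNarrow (X : Type*) [UniformSpace X] : Prop :=
  ∀ V ∈ 𝓤 X, ∃ A : Set X, A.Countable ∧ ∀ x, ∃ a ∈ A, (a, x) ∈ V

/-- The two-sided uniformity of a topological group, the coarsest uniformity that is finer
than the left one and the right one. -/
abbrev twoSided (G : Type*) [Group G] [TopologicalSpace G] [IsTopologicalGroup G] :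
    UniformSpace G :=
  IsTopologicalGroup.leftUniformSpace G ⊓ IsTopologicalGroup.rightUniformSpace G

/-- `t` is the topology of the free topological group `F(X, 𝓤)` on the free group of the set `X`:
it is a group topology, the canonical map from `X` is uniformly continuous for the two-sided
uniformity, and every map from `X` to a topological group `G` that is uniformly continuous for
the two-sided uniformity of `G` extends to a continuous homomorphism. -/
structure IsFreeGroupTopology (X : Type) [UniformSpace X]
    (t : TopologicalSpace (FreeGroup X)) : Prop where
  isTopologicalGroup : IsTopologicalGroup (FreeGroup X)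
  uniformContinuous_of :
    @UniformContinuous X (FreeGroup X) _ (twoSided (FreeGroup X)) FreeGroup.of
  continuous_lift : ∀ (G : Type) [Group G] [TopologicalSpace G] [IsTopologicalGroup G]
    (f : X → G), @UniformContinuous X G _ (twoSided G) f →
      Continuous (FreeGroup.lift f : FreeGroup X →* G)

end Pool.Agent.Work.MP_849c2a_gt
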