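import Mathlib
import Pool.Agent.Work.MP_849c2a_gt.Defs

open Set Filter Topology Uniformity

namespace Pool.Agent.Work.MP_849c2a_gt

theorem uc_twoSided_iff {X G : Type*} [UniformSpace X] [Group G] [TopologicalSpace G]
    [IsTopologicalGroup G] (f : X → G) :
    @UniformContinuous X G _ (twoSided G) f ↔
      Tendsto (fun p : X × X => (f p.1)⁻¹ * f p.2) (𝓤 X) (𝓝 1) ∧
      Tendsto (fun p : X × X => f p.2 * (f p.1)⁻¹) (𝓤 X) (𝓝 1) := by
  unfold twoSided UniformContinuous
  rw [inf_uniformity, tendsto_inf]
  refine and_congr ?_ ?_
  · change Tendsto _ _ (comap (fun p : G × G => p.1⁻¹ * p.2) (𝓝 1)) ↔ _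
    rw [tendsto_comap_iff]
    rfl
  · change Tendsto _ _ (comap (fun p : G × G => p.2 * p.1⁻¹) (𝓝 1)) ↔ _
    rw [tendsto_comap_iff]
    rfl

/-- The group topologies for which the canonical map is uniformly continuous. -/
def good (X : Type) [UniformSpace X] : Set (GroupTopology (FreeGroup X)) :=
  {t | Tendsto (fun p : X × X => (FreeGroup.of p.1)⁻¹ * FreeGroup.of p.2) (𝓤 X)
        (@nhds _ t.toTopologicalSpace 1) ∧
      Tendsto (fun p : X × X => FreeGroup.of p.2 * (FreeGroup.of p.1)⁻¹) (𝓤 X)
        (@nhds _ t.toTopologicalSpace 1)}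

/-- The finest group topology for which the canonical map is uniformly continuous. -/
noncomputable def freeTop (X : Type) [UniformSpace X] : GroupTopology (FreeGroup X) :=
  sInf (good X)

theorem freeTop_mem (X : Type) [UniformSpace X] : freeTop X ∈ good X := by
  unfold freeTop
  constructor
  · rw [GroupTopology.toTopologicalSpace_sInf, nhds_sInf]
    simp only [tendsto_iInf]
    rintro _ ⟨t, ht, rfl⟩
    exact ht.1
  · rw [GroupTopology.toTopologicalSpace_sInf, nhds_sInf]
    simp only [tendsto_iInf]
    rintro _ ⟨t, ht, rfl⟩
    exact ht.2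

theorem isFree (X : Type) [UniformSpace X] :
    IsFreeGroupTopology X (freeTop X).toTopologicalSpace := by
  let _ := (freeTop X).toTopologicalSpace
  have := (freeTop X).toIsTopologicalGroup
  refine ⟨this, ?_, ?_⟩
  · rw [uc_twoSided_iff]
    exact freeTop_mem X
  · intro G _ _ _ f hf
    rw [uc_twoSided_iff] at hf
    let t' : GroupTopology (FreeGroup X) :=
      { toTopologicalSpace := TopologicalSpace.induced (FreeGroup.lift f : FreeGroup X →* G)
          inferInstance
        toIsTopologicalGroup := topologicalGroup_induced (FreeGroup.lift f : FreeGroup X →* G) }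
    have ht' : t' ∈ good X := by
      constructor
      · change Tendsto _ _ (@nhds _ (TopologicalSpace.induced _ _) 1)
        rw [nhds_induced, tendsto_comap_iff, map_one]
        refine hf.1.congr fun p => ?_
        simp
      · change Tendsto _ _ (@nhds _ (TopologicalSpace.induced _ _) 1)
        rw [nhds_induced, tendsto_comap_iff, map_one]
        refine hf.2.congr fun p => ?_
        simp
    have hle : freeTop X ≤ t' := sInf_le ht'
    exact continuous_iff_le_induced.2 hle

/-- The topology of the free topological group is determined by the defining conditions. -/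
theorem IsFreeGroupTopology.le {X : Type} [UniformSpace X] {t t' : TopologicalSpace (FreeGroup X)}
    (h : IsFreeGroupTopology X t) (h' : IsFreeGroupTopology X t') : t ≤ t' := by
  have i' := h'.isTopologicalGroup
  have hc := @IsFreeGroupTopology.continuous_lift X _ t h (FreeGroup X) _ t' i' FreeGroup.of
    h'.uniformContinuous_of
  rw [FreeGroup.lift_of_eq_id] at hc
  exact continuous_id_iff_le.1 hc

theorem IsFreeGroupTopology.unique {X : Type} [UniformSpace X]
    {t t' : TopologicalSpace (FreeGroup X)}
    (h : IsFreeGroupTopology X t) (h' : IsFreeGroupTopology X t') : t = t' :=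
  le_antisymm (h.le h') (h'.le h)

end Pool.Agent.Work.MP_849c2a_gt
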