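import Mathlib
import Pool.Agent.Work.MP_849c2a_gt.Free

open Set Filter Topology Uniformity

namespace Pool.Agent.Work.MP_849c2a_gt

/-- The big block. -/
def blk {K : Type} (n : ℕ) (C : Set K) : Set (ℕ ⊕ K) :=
  {x | Sum.elim (fun m => n ≤ m) (fun a => a ∉ C) x}

/-- The basic entourages. -/
def ent {K : Type} (n : ℕ) (C : Set K) : Set ((ℕ ⊕ K) × (ℕ ⊕ K)) :=
  {p | p.1 = p.2 ∨ (p.1 ∈ blk n C ∧ p.2 ∈ blk n C)}

theorem blk_anti {K : Type} {n n' : ℕ} {C C' : Set K} (hn : n ≤ n') (hC : C ⊆ C') :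
    blk n' C' ⊆ blk n C := by
  rintro (m | a) h
  · exact le_trans hn h
  · exact fun h' => h (hC h')

theorem ent_anti {K : Type} {n n' : ℕ} {C C' : Set K} (hn : n ≤ n') (hC : C ⊆ C') :
    ent n' C' ⊆ ent n C := by
  rintro ⟨x, y⟩ (h | ⟨h1, h2⟩)
  · exact Or.inl h
  · exact Or.inr ⟨blk_anti hn hC h1, blk_anti hn hC h2⟩

/-- The filter of entourages. -/
def unifFilter (K : Type) : Filter ((ℕ ⊕ K) × (ℕ ⊕ K)) where
  sets := {S | ∃ n, ∃ C : Set K, C.Countable ∧ ent n C ⊆ S}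
  univ_sets := ⟨0, ∅, countable_empty, subset_univ _⟩
  sets_of_superset := by
    rintro S T ⟨n, C, hC, h⟩ hST
    exact ⟨n, C, hC, h.trans hST⟩
  inter_sets := by
    rintro S T ⟨n, C, hC, h⟩ ⟨n', C', hC', h'⟩
    exact ⟨max n n', C ∪ C', hC.union hC', subset_inter
      ((ent_anti (le_max_left _ _) subset_union_left).trans h)
      ((ent_anti (le_max_right _ _) subset_union_right).trans h')⟩

/-- The uniformity. -/
@[instance_reducible]
def unif (K : Type) : UniformSpace (ℕ ⊕ K) :=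
  UniformSpace.ofCore
    { uniformity := unifFilter K
      refl := by
        rintro S ⟨n, C, hC, h⟩
        rintro ⟨x, y⟩ hxy
        exact h (Or.inl hxy)
      symm := by
        rintro S ⟨n, C, hC, h⟩
        refine ⟨n, C, hC, ?_⟩
        rintro ⟨x, y⟩ hxy
        refine h ?_
        rcases hxy with hxy | ⟨h1, h2⟩
        · exact Or.inl hxy.symm
        · exact Or.inr ⟨h2, h1⟩
      comp := by
        rintro S ⟨n, C, hC, h⟩
        have hm : ent n C ∈ unifFilter K := ⟨n, C, hC, subset_rfl⟩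
        refine mem_of_superset (mem_lift' hm) ?_
        refine subset_trans ?_ h
        rintro ⟨x, y⟩ ⟨z, hxz, hzy⟩
        rcases hxz with hxz | ⟨h1, h2⟩
        · change x = z at hxz
          subst hxz
          exact hzy
        · rcases hzy with hzy | ⟨h3, h4⟩
          · change z = y at hzy
            subst hzy
            exact Or.inr ⟨h1, h2⟩
          · exact Or.inr ⟨h1, h4⟩ }

attribute [local instance] unif

theorem mem_unif {K : Type} {S : Set ((ℕ ⊕ K) × (ℕ ⊕ K))} :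
    S ∈ 𝓤 (ℕ ⊕ K) ↔ ∃ n, ∃ C : Set K, C.Countable ∧ ent n C ⊆ S := Iff.rfl

theorem ent_mem {K : Type} (n : ℕ) {C : Set K} (hC : C.Countable) :
    ent n C ∈ 𝓤 (ℕ ⊕ K) := ⟨n, C, hC, subset_rfl⟩

theorem t0 (K : Type) : T0Space (ℕ ⊕ K) := by
  rw [t0Space_iff_uniformity]
  intro x y h
  by_contra hne
  rcases x with m | a
  · have := h _ (ent_mem (K := K) (m + 1) countable_empty)
    rcases this with h1 | ⟨h1, -⟩
    · exact hne h1
    · change m + 1 ≤ m at h1
      omega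
  · have := h _ (ent_mem (K := K) 0 (countable_singleton a))
    rcases this with h1 | ⟨h1, -⟩
    · exact hne h1
    · exact h1 (mem_singleton a)

theorem narrow (K : Type) : OmegaNarrow (ℕ ⊕ K) := by
  rintro V ⟨n, C, hC, h⟩
  refine ⟨range Sum.inl ∪ Sum.inr '' C, (countable_range _).union (hC.image _), ?_⟩
  rintro (m | a)
  · exact ⟨Sum.inl m, Or.inl ⟨m, rfl⟩, h (Or.inl rfl)⟩
  · by_cases ha : a ∈ C
    · exact ⟨Sum.inr a, Or.inr ⟨a, ha, rfl⟩, h (Or.inl rfl)⟩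
    · exact ⟨Sum.inl n, Or.inl ⟨n, rfl⟩, h (Or.inr ⟨le_refl n, ha⟩)⟩

/-- The basic entourages are symmetric. -/
def sent {K : Type} (n : ℕ) (C : Set K) (hC : C.Countable) : SymEntourage (ℕ ⊕ K) where
  carrier := ent n C
  mem := ent_mem n hC
  symm := by
    rintro x y (h | ⟨h1, h2⟩)
    · exact Or.inl h.symm
    · exact Or.inr ⟨h2, h1⟩

theorem exists_of_tukey {P Q : Type*} [Preorder P] [Preorder Q] {φ : Q → P}
    (h : ∀ C : Set Q, IsCofinal C → IsCofinal (φ '' C)) (p : P) :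
    ∃ q, ∀ q', q ≤ q' → p ≤ φ q' := by
  by_contra hcon
  push Not at hcon
  have hc : IsCofinal {q' | ¬ p ≤ φ q'} := fun q => by
    obtain ⟨q', h1, h2⟩ := hcon q
    exact ⟨q', h2, h1⟩
  obtain ⟨_, ⟨q', h1, rfl⟩, h2⟩ := h _ hc p
  exact h1 h2

/-- The null sequence of words. -/
def nul {K : Type} (k : ℕ) : FreeGroup (ℕ ⊕ K) :=
  (FreeGroup.of (Sum.inl k))⁻¹ * FreeGroup.of (Sum.inl (k + 1))

/-- The conjugates. -/
def conj {K : Type} (a : K) (k : ℕ) : FreeGroup (ℕ ⊕ K) :=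
  FreeGroup.of (Sum.inr a) * nul k * (FreeGroup.of (Sum.inr a))⁻¹

theorem tendsto_conj {K : Type} (a : K) {t : TopologicalSpace (FreeGroup (ℕ ⊕ K))}
    (ht : IsFreeGroupTopology (ℕ ⊕ K) t) :
    Tendsto (fun k => conj a k) atTop (𝓝 1) := by
  have := ht.isTopologicalGroup
  have h1 := ((uc_twoSided_iff _).1 ht.uniformContinuous_of).1
  have h2 : Tendsto (fun k : ℕ => ((Sum.inl k, Sum.inl (k + 1)) : (ℕ ⊕ K) × (ℕ ⊕ K))) atTop
      (𝓤 (ℕ ⊕ K)) := by
    rintro S ⟨n, C, hC, h⟩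
    refine mem_map.2 (mem_of_superset (Ici_mem_atTop n) ?_)
    intro k hk
    refine h (Or.inr ⟨?_, ?_⟩)
    · exact hk
    · exact le_trans hk (Nat.le_succ k)
  have h3 : Tendsto (fun k => nul (K := K) k) atTop (𝓝 1) := h1.comp h2
  have h4 : Tendsto (fun k => FreeGroup.of (Sum.inr a) * nul (K := K) k *
      (FreeGroup.of (Sum.inr a))⁻¹) atTop
      (𝓝 (FreeGroup.of (Sum.inr a) * 1 * (FreeGroup.of (Sum.inr a))⁻¹)) :=
    (tendsto_const_nhds.mul h3).mul tendsto_const_nhds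
  simpa [conj] using h4

end Pool.Agent.Work.MP_849c2a_gt
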