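import Mathlib
import Pool.Agent.Work.MP_849c2a_gt.Space

open Set Filter Topology Uniformity

namespace Pool.Agent.Work.MP_849c2a_gt

attribute [local instance] unif

/-- The group of invertible real `2 × 2` matrices. -/
abbrev G2 : Type := (Matrix (Fin 2) (Fin 2) ℝ)ˣ

/-- Unipotent matrices. -/
def uni (t : ℝ) : G2 where
  val := !![1, t; 0, 1]
  inv := !![1, -t; 0, 1]
  val_inv := by
    ext i j; fin_cases i <;> fin_cases j <;> simp [Matrix.mul_apply, Fin.sum_univ_two]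
  inv_val := by
    ext i j; fin_cases i <;> fin_cases j <;> simp [Matrix.mul_apply, Fin.sum_univ_two]

/-- Diagonal matrices. -/
noncomputable def dia (a : ℝ) (ha : a ≠ 0) : G2 where
  val := !![a, 0; 0, 1]
  inv := !![a⁻¹, 0; 0, 1]
  val_inv := by
    ext i j; fin_cases i <;> fin_cases j <;> simp [Matrix.mul_apply, Fin.sum_univ_two, ha]
  inv_val := by
    ext i j; fin_cases i <;> fin_cases j <;> simp [Matrix.mul_apply, Fin.sum_univ_two, ha]

theorem continuous_uni : Continuous uni := by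
  rw [Units.continuous_iff]
  constructor
  · refine continuous_matrix fun i j => ?_
    fin_cases i <;> fin_cases j <;> simp [uni, continuous_const, continuous_id']
  · refine continuous_matrix fun i j => ?_
    fin_cases i <;> fin_cases j <;> simp [uni, continuous_const, continuous_neg]

theorem uni_zero : uni 0 = 1 := by
  ext i j
  fin_cases i <;> fin_cases j <;> simp [uni]

theorem uni_seq : Tendsto (fun m : ℕ => uni ((1 / 2 : ℝ) ^ m)) atTop (𝓝 1) := by
  have h := (continuous_uni.tendsto 0).comp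
    (tendsto_pow_atTop_nhds_zero_of_lt_one (r := (1 / 2 : ℝ)) (by norm_num) (by norm_num))
  rw [uni_zero] at h
  exact h

theorem entry (k : ℕ) : ((dia ((2 : ℝ) ^ (k + 1)) (by positivity) *
    ((uni ((1 / 2 : ℝ) ^ k))⁻¹ * uni ((1 / 2 : ℝ) ^ (k + 1))) *
    (dia ((2 : ℝ) ^ (k + 1)) (by positivity))⁻¹ : G2) : Matrix (Fin 2) (Fin 2) ℝ) 0 1 = -1 := by
  have e1 : ((uni ((1 / 2 : ℝ) ^ k))⁻¹ : G2).val = !![1, -((1 / 2 : ℝ) ^ k); 0, 1] := rfl
  have e2 : ((dia ((2 : ℝ) ^ (k + 1)) (by positivity))⁻¹ : G2).val =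
    !![((2 : ℝ) ^ (k + 1))⁻¹, 0; 0, 1] := rfl
  rw [Units.val_mul, Units.val_mul, Units.val_mul, e1, e2]
  simp only [uni, dia, Matrix.mul_apply, Fin.sum_univ_two]
  simp
  have h : (2 : ℝ) ^ (k + 1) ≠ 0 := by positivity
  have h' : (2 : ℝ) ^ k ≠ 0 := by positivity
  field_simp
  ring

/-- The open neighbourhood of the identity. -/
def nb : Set G2 := {g | |(g : Matrix (Fin 2) (Fin 2) ℝ) 0 1| < 1}

theorem nb_mem : nb ∈ 𝓝 (1 : G2) := by
  have ho : IsOpen nb := by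
    have hc : Continuous fun g : G2 => |(g : Matrix (Fin 2) (Fin 2) ℝ) 0 1| :=
      ((Units.continuous_val).matrix_elem 0 1).abs
    exact isOpen_lt hc continuous_const
  refine ho.mem_nhds ?_
  simp [nb]

open Classical in
/-- The map to `G2`. -/
noncomputable def fmap {K : Type} (s : ℕ → K) : ℕ ⊕ K → G2 :=
  Sum.elim (fun m => uni ((1 / 2 : ℝ) ^ m))
    (fun a => if h : ∃ k, s k = a then dia ((2 : ℝ) ^ (Nat.find h + 1)) (by positivity) else 1)

theorem fmap_inr {K : Type} (s : ℕ → K) (hs : Function.Injective s) (k : ℕ) :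
    fmap s (Sum.inr (s k)) = dia ((2 : ℝ) ^ (k + 1)) (by positivity) := by
  classical
  have h : ∃ j, s j = s k := ⟨k, rfl⟩
  have hk : Nat.find h = k := hs (Nat.find_spec h)
  simp only [fmap, Sum.elim_inr]
  rw [dif_pos h]
  congr 2
  convert rfl using 2
  convert hk.symm

theorem fmap_blk {K : Type} (s : ℕ → K) {N : Set G2} (hN : N ∈ 𝓝 (1 : G2)) :
    ∃ n, ∀ x ∈ blk n (range s), fmap s x ∈ N := by
  classical
  have h := uni_seq hN
  obtain ⟨n, hn⟩ := mem_atTop_sets.1 (mem_map.1 h)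
  refine ⟨n, ?_⟩
  rintro (m | a) hx
  · exact hn m hx
  · have hna : ¬ ∃ k, s k = a := fun ⟨k, hk⟩ => hx ⟨k, hk⟩
    have : fmap s (Sum.inr a) = 1 := by
      simp only [fmap, Sum.elim_inr]
      rw [dif_neg hna]
    rw [this]
    exact mem_of_mem_nhds hN

theorem fmap_uc {K : Type} (s : ℕ → K) :
    @UniformContinuous (ℕ ⊕ K) G2 _ (twoSided G2) (fmap s) := by
  rw [uc_twoSided_iff]
  have key : ∀ (g : G2 × G2 → G2), Continuous g → g (1, 1) = 1 → (∀ x, g (x, x) = 1) →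
      Tendsto (fun p : (ℕ ⊕ K) × (ℕ ⊕ K) => g (fmap s p.1, fmap s p.2)) (𝓤 (ℕ ⊕ K)) (𝓝 1) := by
    intro g hg h1 hd N hN
    have h2 : g ⁻¹' N ∈ 𝓝 ((1, 1) : G2 × G2) := by
      refine (hg.tendsto (1, 1)) ?_
      rw [h1]
      exact hN
    rw [nhds_prod_eq, mem_prod_iff] at h2
    obtain ⟨A, hA, B, hB, hAB⟩ := h2
    obtain ⟨n, hn⟩ := fmap_blk s (inter_mem hA hB)
    refine mem_map.2 ⟨n, range s, countable_range s, ?_⟩
    rintro ⟨x, y⟩ (h | ⟨hx, hy⟩)
    · change x = y at h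
      subst h
      change g (fmap s x, fmap s x) ∈ N
      rw [hd]
      exact mem_of_mem_nhds hN
    · exact hAB ⟨(hn x hx).1, (hn y hy).2⟩
  constructor
  · exact key (fun p => p.1⁻¹ * p.2) (by fun_prop) (by simp) (by simp)
  · exact key (fun p => p.2 * p.1⁻¹) (by fun_prop) (by simp) (by simp)

theorem exists_nhd {K : Type} {t : TopologicalSpace (FreeGroup (ℕ ⊕ K))}
    (ht : IsFreeGroupTopology (ℕ ⊕ K) t) (s : ℕ → K) (hs : Function.Injective s) :
    ∃ W : NhdOne t, ∀ k, conj (s k) k ∉ W.carrier := by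
  have hc := ht.continuous_lift G2 (fmap s) (fmap_uc s)
  have hmem : (FreeGroup.lift (fmap s)) ⁻¹' nb ∈ 𝓝 (1 : FreeGroup (ℕ ⊕ K)) := by
    refine hc.continuousAt ?_
    rw [map_one]
    exact nb_mem
  refine ⟨⟨_, hmem⟩, fun k hk => ?_⟩
  change FreeGroup.lift (fmap s) (conj (s k) k) ∈ nb at hk
  have e : FreeGroup.lift (fmap s) (conj (s k) k) = dia ((2 : ℝ) ^ (k + 1)) (by positivity) *
    ((uni ((1 / 2 : ℝ) ^ k))⁻¹ * uni ((1 / 2 : ℝ) ^ (k + 1))) *
    (dia ((2 : ℝ) ^ (k + 1)) (by positivity))⁻¹ := by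
    simp only [conj, nul, map_mul, map_inv, FreeGroup.lift_apply_of, fmap_inr s hs k]
    rfl
  rw [e] at hk
  change |_| < (1 : ℝ) at hk
  rw [entry k] at hk
  norm_num at hk

/-- A type of large cardinality. -/
abbrev KK : Type := Set ((ℕ → ℕ) × (ℕ → ℕ) → ℕ)

theorem pigeon (β : KK → ((ℕ → ℕ) × (ℕ → ℕ) → ℕ)) :
    ∃ s : ℕ → KK, Function.Injective s ∧ ∀ k, β (s k) = β (s 0) := by
  obtain ⟨b, hb⟩ := Cardinal.exists_infinite_fiber β (by
    rw [Cardinal.mk_set]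
    exact Cardinal.cantor _)
  let e := Infinite.natEmbedding (β ⁻¹' {b})
  refine ⟨fun k => (e k : KK), fun i j hij => e.injective (Subtype.ext hij), fun k => ?_⟩
  have h1 : β (e k : KK) = b := (e k).2
  have h2 : β (e 0 : KK) = b := (e 0).2
  rw [h1, h2]

theorem main {t : TopologicalSpace (FreeGroup (ℕ ⊕ KK))}
    (ht : IsFreeGroupTopology (ℕ ⊕ KK) t) :
    ¬ TukeyLE (NhdOne t) ((ℕ → ℕ) × (ℕ → SymEntourage (ℕ ⊕ KK))) := by
  rintro ⟨φ, hφ⟩
  -- the neighbourhoods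
  choose W hW using fun s : {s : ℕ → KK // Function.Injective s} => exists_nhd ht s.1 s.2
  choose q hq using fun s => exists_of_tukey hφ (W s)
  have hu : ∀ s, ∀ i, ∃ n, ∃ C : Set KK, C.Countable ∧ ent n C ⊆ ((q s).2 i).carrier :=
    fun s i => ((q s).2 i).mem
  choose n C hC hnC using hu
  -- boundedness
  have hB : ∀ (a : KK) (p : (ℕ → ℕ) × (ℕ → ℕ)), ∃ M, ∀ s k, s.1 k = a → (q s).1 ≤ p.1 →
      n s ≤ p.2 → k ≤ M := by
    intro a p
    by_contra hcon
    push Not at hcon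
    choose s k h1 h2 h3 h4 using hcon
    let D : ℕ → Set KK := fun i => ⋃ j, C (s j) i
    have hD : ∀ i, (D i).Countable := fun i => countable_iUnion fun j => hC (s j) i
    let r : (ℕ → ℕ) × (ℕ → SymEntourage (ℕ ⊕ KK)) := (p.1, fun i => sent (p.2 i) (D i) (hD i))
    have hr : ∀ j, q (s j) ≤ r := by
      intro j
      refine ⟨h2 j, fun i => ?_⟩
      change ent (p.2 i) (D i) ⊆ ((q (s j)).2 i).carrier
      exact (ent_anti (h3 j i) (subset_iUnion (fun j => C (s j) i) j)).trans (hnC (s j) i)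
    have hsub : ∀ j, (φ r).carrier ⊆ (W (s j)).carrier := fun j => hq (s j) r (hr j)
    have hev := (tendsto_conj a ht).eventually (φ r).mem
    obtain ⟨N, hN⟩ := eventually_atTop.1 hev
    have := hN (k N) (h4 N).le
    have h5 := hW (s N) (k N)
    rw [h1 N] at h5
    exact h5 (hsub N this)
  choose β hβ using hB
  obtain ⟨s, hs, hsβ⟩ := pigeon β
  let p : (ℕ → ℕ) × (ℕ → ℕ) := ((q ⟨s, hs⟩).1, n ⟨s, hs⟩)
  have h := hβ (s (β (s 0) p + 1)) p ⟨s, hs⟩ (β (s 0) p + 1) rfl le_rfl le_rfl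
  rw [hsβ (β (s 0) p + 1)] at h
  omega

theorem final : ∃ (X : Type) (_ : UniformSpace X) (t : TopologicalSpace (FreeGroup X)),
    (∀ x y : X, (∀ V ∈ 𝓤 X, (x, y) ∈ V) → x = y) ∧ OmegaNarrow X ∧
    IsFreeGroupTopology X t ∧
    ¬ TukeyLE (NhdOne t) ((ℕ → ℕ) × (ℕ → SymEntourage X)) :=
  ⟨ℕ ⊕ KK, unif KK, (freeTop (ℕ ⊕ KK)).toTopologicalSpace,
    fun x y h => t0Space_iff_uniformity.1 (t0 KK) x y h, narrow KK, isFree _,
    main (isFree _)⟩

end Pool.Agent.Work.MP_849c2a_gt
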